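import Pool.Agent.V110.ME.Core

set_option autoImplicit false

/-! # The infinitesimal multiplicativity -/

open NormedSpace
open scoped InnerProductSpace

namespace Pool.Agent.V110.ME

/-- operators `E_a = π(a e)`, `F_a = π(a f)`, `D_a = π(a h)` with the relations of `sl₂ ⊗ A`, and a
vector `v` killed by all `E_a`, with `D_a v = lam a • v`, `F_a^* v = 0`, `D_a^* v = conj (lam a) • v` -/
structure Data (A H : Type*) [NonUnitalCommRing A] [Module ℂ A] [NormedAddCommGroup H]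
    [InnerProductSpace ℂ H] where
  E : A →ₗ[ℂ] (H →L[ℂ] H)
  F : A →ₗ[ℂ] (H →L[ℂ] H)
  D : A →ₗ[ℂ] (H →L[ℂ] H)
  DE : ∀ a b, D a * E b - E b * D a = (2 : ℂ) • E (a * b)
  DF : ∀ a b, D a * F b - F b * D a = (-2 : ℂ) • F (a * b)
  EF : ∀ a b, E a * F b - F b * E a = D (a * b)
  EE : ∀ a b, E a * E b = E b * E a
  FF : ∀ a b, F a * F b = F b * F a
  DD : ∀ a b, D a * D b = D b * D a
  v : H
  hv : v ≠ 0
  lam : A → ℂ
  Ev : ∀ a, E a v = 0
  Dv : ∀ a, D a v = lam a • v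
  Fi : ∀ a x, ⟪v, F a x⟫_ℂ = 0
  Di : ∀ a x, ⟪v, D a x⟫_ℂ = lam a * ⟪v, x⟫_ℂ

namespace Data

variable {A H : Type*} [NonUnitalCommRing A] [Module ℂ A] [NormedAddCommGroup H]
    [InnerProductSpace ℂ H] (S : Data A H)

/-- `N_a = π(a (h + e - f))` -/
noncomputable def N : A →ₗ[ℂ] (H →L[ℂ] H) := S.D + S.E - S.F

theorem N_apply (a : A) : S.N a = S.D a + S.E a - S.F a := rfl

theorem NE (z u : A) : S.N z * S.E u - S.E u * S.N z = S.D (z * u) + (2 : ℂ) • S.E (z * u) := by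
  have h1 := S.DE z u
  have h2 := S.EE z u
  have h3 := S.EF u z
  rw [mul_comm u z] at h3
  rw [N_apply, ← h1, ← h3]
  simp only [add_mul, sub_mul, mul_add, mul_sub, h2]
  abel

theorem ND (z w : A) : S.N z * S.D w - S.D w * S.N z =
    (-2 : ℂ) • (S.E (z * w) + S.F (z * w)) := by
  have h1 := S.DE w z
  have h2 := S.DD z w
  have h3 := S.DF w z
  rw [mul_comm w z] at h1 h3
  have h4 : (-2 : ℂ) • S.E (z * w) = -((2 : ℂ) • S.E (z * w)) := by rw [neg_smul]
  rw [smul_add, h4, ← h1, ← h3, N_apply]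
  simp only [add_mul, sub_mul, mul_add, mul_sub, h2]
  abel

theorem NF (z w : A) : S.N z * S.F w - S.F w * S.N z =
    S.D (z * w) - (2 : ℂ) • S.F (z * w) := by
  have h1 := S.DF z w
  have h2 := S.FF z w
  have h3 := S.EF z w
  have h4 : -((2 : ℂ) • S.F (z * w)) = (-2 : ℂ) • S.F (z * w) := by rw [neg_smul]
  rw [sub_eq_add_neg (S.D (z * w)), h4, ← h1, ← h3, N_apply]
  simp only [add_mul, sub_mul, mul_add, mul_sub, h2]
  abel

theorem NN (z w : A) : S.N z * S.N w = S.N w * S.N z := by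
  have h1 := S.ND z w
  have h2 := S.NE z w
  have h3 := S.NF z w
  have h : S.N z * S.N w - S.N w * S.N z = (S.N z * S.D w - S.D w * S.N z) +
      (S.N z * S.E w - S.E w * S.N z) - (S.N z * S.F w - S.F w * S.N z) := by
    rw [N_apply S w]
    simp only [mul_add, add_mul, mul_sub, sub_mul]
    abel
  rw [h1, h2, h3] at h
  have h0 : (-2 : ℂ) • (S.E (z * w) + S.F (z * w)) +
      (S.D (z * w) + (2 : ℂ) • S.E (z * w)) - (S.D (z * w) - (2 : ℂ) • S.F (z * w)) = 0 := by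
    module
  rw [h0] at h
  exact sub_eq_zero.1 h

theorem lam_add (a b : A) : S.lam (a + b) = S.lam a + S.lam b := by
  have h := S.Dv (a + b)
  rw [map_add, _root_.add_apply, S.Dv, S.Dv, ← add_smul] at h
  exact (smul_left_injective ℂ S.hv h).symm

theorem Ni (a : A) (x : H) : ⟪S.v, S.N a x⟫_ℂ = S.lam a * ⟪S.v, x⟫_ℂ + ⟪S.v, S.E a x⟫_ℂ := by
  rw [N_apply, _root_.sub_apply, _root_.add_apply, inner_sub_right,
    inner_add_right, S.Fi, S.Di, sub_zero]

variable [CompleteSpace H]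

/-- the infinitesimal multiplicativity -/
theorem key (z w : A) : ⟪S.v, S.N (w + z * w) (exp (S.N z) S.v)⟫_ℂ =
    S.lam w * ⟪S.v, exp (S.N z) S.v⟫_ℂ := by
  set Ω := exp (S.N z) S.v with hΩ
  set c := ⟪S.v, Ω⟫_ℂ with hc
  -- (R1)
  have r1 : exp (S.N z) * S.E w =
      (S.E w + (S.D (z * w) + (2 : ℂ) • S.E (z * w)) + S.N (z * (z * w))) * exp (S.N z) := by
    refine conj_exp (S.NE z w) ?_ (S.NN _ _)
    have h1 := S.ND z (z * w)
    have h2 := S.NE z (z * w)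
    have h : S.N z * (S.D (z * w) + (2 : ℂ) • S.E (z * w)) -
        (S.D (z * w) + (2 : ℂ) • S.E (z * w)) * S.N z =
        (S.N z * S.D (z * w) - S.D (z * w) * S.N z) +
        (2 : ℂ) • (S.N z * S.E (z * w) - S.E (z * w) * S.N z) := by
      simp only [mul_add, add_mul, mul_smul_comm, smul_mul_assoc, smul_sub]
      abel
    rw [h, h1, h2, N_apply]
    module
  have r2 : exp (S.N z) * S.D w =
      (S.D w + (-2 : ℂ) • (S.E (z * w) + S.F (z * w)) + (-2 : ℂ) • S.N (z * (z * w))) *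
        exp (S.N z) := by
    refine conj_exp (S.ND z w) ?_ ?_
    · have h1 := S.NF z (z * w)
      have h2 := S.NE z (z * w)
      have h : S.N z * ((-2 : ℂ) • (S.E (z * w) + S.F (z * w))) -
          ((-2 : ℂ) • (S.E (z * w) + S.F (z * w))) * S.N z =
          (-2 : ℂ) • (S.N z * S.F (z * w) - S.F (z * w) * S.N z) +
          (-2 : ℂ) • (S.N z * S.E (z * w) - S.E (z * w) * S.N z) := by
        simp only [mul_add, add_mul, mul_smul_comm, smul_mul_assoc, smul_sub, smul_add]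
        abel
      rw [h, h1, h2, N_apply]
      module
    · rw [mul_smul_comm, smul_mul_assoc, S.NN]
  have q1 : ⟪S.v, S.E w Ω⟫_ℂ + S.lam (z * w) * c + 2 * ⟪S.v, S.E (z * w) Ω⟫_ℂ +
      (S.lam (z * (z * w)) * c + ⟪S.v, S.E (z * (z * w)) Ω⟫_ℂ) = 0 := by
    have h : ⟪S.v, exp (S.N z) (S.E w S.v)⟫_ℂ =
        ⟪S.v, (S.E w + (S.D (z * w) + (2 : ℂ) • S.E (z * w)) + S.N (z * (z * w))) Ω⟫_ℂ :=
      congrArg (fun T : H →L[ℂ] H => ⟪S.v, T S.v⟫_ℂ) r1
    simp only [S.Ev, map_zero, inner_zero_right,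
      _root_.add_apply, _root_.smul_apply, inner_add_right,
      inner_smul_right, S.Ni, S.Di, ← hc] at h
    linear_combination -h
  have q2 : -2 * ⟪S.v, S.E (z * w) Ω⟫_ℂ - 2 * (S.lam (z * (z * w)) * c +
      ⟪S.v, S.E (z * (z * w)) Ω⟫_ℂ) = 0 := by
    have h : ⟪S.v, exp (S.N z) (S.D w S.v)⟫_ℂ =
        ⟪S.v, (S.D w + (-2 : ℂ) • (S.E (z * w) + S.F (z * w)) +
          (-2 : ℂ) • S.N (z * (z * w))) Ω⟫_ℂ :=
      congrArg (fun T : H →L[ℂ] H => ⟪S.v, T S.v⟫_ℂ) r2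
    simp only [S.Dv, map_smul,
      _root_.add_apply, _root_.smul_apply, inner_add_right,
      inner_smul_right, S.Ni, S.Di, S.Fi, ← hΩ, ← hc] at h
    linear_combination -h
  rw [S.Ni, S.lam_add, map_add, _root_.add_apply, inner_add_right, ← hc]
  linear_combination q1 + q2 / 2

end Data

end Pool.Agent.V110.ME
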