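import Mathlib

set_option autoImplicit false

/-! # Operators `N_a` of a representation of `sl₂ ⊗ A` and their exponentials -/

open NormedSpace

namespace Pool.Agent.V110.ME

section banach

variable {B : Type*} [NormedRing B] [NormedAlgebra ℂ B] [CompleteSpace B]

/-- derivative of `exp (N s)` for a commuting family -/
theorem hasDerivAt_exp_comm {N : ℂ → B} {N' : B} {t : ℂ} (hc : ∀ s, Commute (N t) (N s))
    (h : HasDerivAt N N' t) : HasDerivAt (fun s => exp (N s)) (exp (N t) * N') t := by
  have : NormedAlgebra ℚ B := NormedAlgebra.restrictScalars ℚ ℂ B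
  have h1 : ∀ s, exp (N s) = exp (N t) * exp (N s - N t) := by
    intro s
    rw [← exp_add_of_commute ((hc s).sub_right (Commute.refl _))]
    congr 1
    abel
  have h2 : HasDerivAt (fun s => N s - N t) N' t := h.sub_const _
  have h3 : HasFDerivAt (exp : B → B) (1 : B →L[ℂ] B) ((fun s => N s - N t) t) := by
    simp only [sub_self]
    exact hasFDerivAt_exp_zero
  have h4 := h3.comp_hasDerivAt t h2
  have h5 := h4.const_mul (exp (N t))
  have h6 : (fun s => exp (N s)) = fun s => exp (N t) * ((exp : B → B) ∘ fun s => N s - N t) s := by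
    funext s
    exact h1 s
  rw [h6]
  simpa using h5

/-- `exp N · X = (X + Y + Z) · exp N` when `[N, X] = Y`, `[N, Y] = 2 Z`, `[N, Z] = 0` -/
theorem conj_exp {N X Y Z : B} (h1 : N * X - X * N = Y) (h2 : N * Y - Y * N = 2 • Z)
    (h3 : N * Z = Z * N) : exp N * X = (X + Y + Z) * exp N := by
  have : NormedAlgebra ℚ B := NormedAlgebra.restrictScalars ℚ ℂ B
  have hexp : ∀ t : ℂ, HasDerivAt (fun s : ℂ => exp (s • N)) (exp (t • N) * N) t := fun t =>
    hasDerivAt_exp_comm (N := fun s : ℂ => s • N) (fun s => ((Commute.refl N).smul_left t).smul_right s)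
      (by simpa using (hasDerivAt_id t).smul_const N)
  have hexp' : ∀ t : ℂ, HasDerivAt (fun s : ℂ => exp (-(s • N))) (-(exp (-(t • N)) * N)) t := by
    intro t
    have := hasDerivAt_exp_comm (N := fun s : ℂ => -(s • N)) (N' := -N) (t := t)
      (fun s => (((Commute.refl N).smul_left t).smul_right s).neg_left.neg_right)
      (by simpa using ((hasDerivAt_id t).smul_const N).fun_neg)
    simpa using this
  have hX : ∀ t : ℂ, HasDerivAt (fun s : ℂ => X + s • Y + s ^ 2 • Z) (Y + (2 * t) • Z) t := by
    intro t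
    have a1 : HasDerivAt (fun s : ℂ => s • Y) Y t := by simpa using (hasDerivAt_id t).smul_const Y
    have a2 : HasDerivAt (fun s : ℂ => s ^ 2 • Z) ((2 * t) • Z) t := by
      have := (hasDerivAt_pow 2 t).smul_const Z
      simpa using this
    have := ((hasDerivAt_const t X).fun_add a1).fun_add a2
    simpa using this
  have hd : ∀ t : ℂ, HasDerivAt
      (fun s : ℂ => exp (-(s • N)) * (X + s • Y + s ^ 2 • Z) * exp (s • N)) 0 t := by
    intro t
    have := ((hexp' t).fun_mul (hX t)).fun_mul (hexp t)
    refine this.congr_deriv ?_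
    have hNexp : N * exp (t • N) = exp (t • N) * N :=
      (((Commute.refl N).smul_right t).exp_right).eq
    have e1 : (exp (-(t • N)) * (X + t • Y + t ^ 2 • Z)) * (exp (t • N) * N) =
        (exp (-(t • N)) * (X + t • Y + t ^ 2 • Z)) * (N * exp (t • N)) := by rw [hNexp]
    rw [e1]
    have e2 : -(exp (-(t • N)) * N) * (X + t • Y + t ^ 2 • Z) +
        exp (-(t • N)) * (Y + (2 * t) • Z) + exp (-(t • N)) * (X + t • Y + t ^ 2 • Z) * N = 0 := by
      have e3 : -(exp (-(t • N)) * N) * (X + t • Y + t ^ 2 • Z) +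
        exp (-(t • N)) * (Y + (2 * t) • Z) + exp (-(t • N)) * (X + t • Y + t ^ 2 • Z) * N =
        exp (-(t • N)) * (-(N * X - X * N) - t • (N * Y - Y * N) - t ^ 2 • (N * Z - Z * N)
          + (Y + (2 * t) • Z)) := by
        simp only [mul_add, add_mul, mul_sub, smul_sub, mul_smul_comm, smul_mul_assoc, mul_assoc,
          neg_mul, mul_neg]
        module
      rw [e3, h1, h2, h3, sub_self, smul_zero, sub_zero]
      have : -Y - t • (2 • Z) + (Y + (2 * t) • Z) = 0 := by
        rw [two_nsmul, smul_add, mul_smul, two_smul]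
        abel
      rw [this, mul_zero]
    calc _ = (-(exp (-(t • N)) * N) * (X + t • Y + t ^ 2 • Z) +
        exp (-(t • N)) * (Y + (2 * t) • Z) + exp (-(t • N)) * (X + t • Y + t ^ 2 • Z) * N)
          * exp (t • N) := by
          simp only [add_mul, mul_assoc]
      _ = 0 := by rw [e2, zero_mul]
  have hconst := is_const_of_deriv_eq_zero
    (f := fun s : ℂ => exp (-(s • N)) * (X + s • Y + s ^ 2 • Z) * exp (s • N))
    (fun t => (hd t).differentiableAt) (fun t => (hd t).deriv) 1 0
  simp only [one_smul, one_pow, zero_smul, neg_zero, exp_zero, one_mul, add_zero, mul_one,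
    ne_eq, OfNat.ofNat_ne_zero, not_false_eq_true, zero_pow] at hconst
  have hinv : exp N * exp (-N) = 1 := by
    rw [← exp_add_of_commute ((Commute.refl N).neg_right), add_neg_cancel, exp_zero]
  calc exp N * X = exp N * (exp (-N) * (X + Y + Z) * exp N) := by rw [hconst]
    _ = (exp N * exp (-N)) * (X + Y + Z) * exp N := by simp only [mul_assoc]
    _ = _ := by rw [hinv, one_mul]

end banach

end Pool.Agent.V110.ME
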