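import Pool.Agent.V110.ME.Alg

set_option autoImplicit false

/-! # Multiplicativity and the exponential -/

open NormedSpace Topology Filter
open scoped InnerProductSpace

namespace Pool.Agent.V110.ME

namespace Data

variable {A H : Type*} [NonUnitalCommRing A] [Module ℂ A] [NormedAddCommGroup H]
    [InnerProductSpace ℂ H] (S : Data A H)

/-- the functional `T ↦ ⟪v, T v⟫` -/
noncomputable def L : (H →L[ℂ] H) →L[ℂ] ℂ :=
  (innerSL ℂ S.v).comp (ContinuousLinearMap.apply ℂ H S.v)

theorem L_apply (T : H →L[ℂ] H) : S.L T = ⟪S.v, T S.v⟫_ℂ := rfl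

/-- `Φ a = ⟪v, exp (N_a) v⟫` -/
noncomputable def Φ (a : A) : ℂ := S.L (exp (S.N a))

variable [CompleteSpace H]

theorem Φ_zero : S.Φ 0 = ⟪S.v, S.v⟫_ℂ := by
  rw [Φ, map_zero, exp_zero, L_apply]
  rfl

theorem Φ_zero_ne : S.Φ 0 ≠ 0 := by
  rw [Φ_zero]
  exact inner_self_ne_zero.2 S.hv

/-- derivative along a commuting curve -/
theorem hasDerivAt_curve {z : ℂ → A} {b : A} {t : ℂ}
    (h : HasDerivAt (fun s => S.N (z s)) (S.N b) t) :
    HasDerivAt (fun s => S.Φ (z s)) (⟪S.v, S.N b (exp (S.N (z t)) S.v)⟫_ℂ) t := by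
  have h1 := hasDerivAt_exp_comm (N := fun s => S.N (z s)) (fun s => S.NN (z t) (z s)) h
  have h2 := S.L.hasFDerivAt.comp_hasDerivAt t h1
  refine h2.congr_deriv ?_
  rw [L_apply]
  have hc : exp (S.N (z t)) * S.N b = S.N b * exp (S.N (z t)) :=
    ((show Commute (S.N (z t)) (S.N b) from S.NN _ _).exp_left).eq
  rw [hc]
  rfl

theorem hasDerivAt_line (a b : A) (t : ℂ) :
    HasDerivAt (fun s : ℂ => S.Φ (a + s • b)) (⟪S.v, S.N b (exp (S.N (a + t • b)) S.v)⟫_ℂ) t := by
  apply S.hasDerivAt_curve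
  have h : (fun s : ℂ => S.N (a + s • b)) = fun s : ℂ => S.N a + s • S.N b := by
    funext s
    rw [map_add, map_smul]
  rw [h]
  have h1 : HasDerivAt (fun s : ℂ => s • S.N b) (S.N b) t := by
    simpa using (hasDerivAt_id t).smul_const (S.N b)
  exact h1.const_add _

theorem differentiable_line (a b : A) : Differentiable ℂ (fun s : ℂ => S.Φ (a + s • b)) :=
  fun t => (S.hasDerivAt_line a b t).differentiableAt

variable [IsScalarTower ℂ A A] [SMulCommClass ℂ A A]

/-- multiplicativity -/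
theorem mult (x y : A) (hU : ∀ᶠ t : ℂ in 𝓝 0, ∃ w : A, w + (t • y) * w = y) :
    S.Φ (x + y + x * y) * S.Φ 0 = S.Φ x * S.Φ y := by
  set f : ℂ → ℂ := fun t => S.Φ (x + t • (y + x * y)) with hf
  set g : ℂ → ℂ := fun t => S.Φ (0 + t • y) with hg
  have hg0 : g 0 ≠ 0 := by
    simp only [hg, zero_smul, add_zero]
    exact S.Φ_zero_ne
  have hdf : Differentiable ℂ f := S.differentiable_line _ _
  have hdg : Differentiable ℂ g := S.differentiable_line _ _
  have hgne : ∀ᶠ t in 𝓝 (0 : ℂ), g t ≠ 0 := hdg.continuous.continuousAt.eventually_ne hg0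
  obtain ⟨r, hr, hball⟩ := Metric.eventually_nhds_iff_ball.1 (hU.and hgne)
  have hq : ∀ t ∈ Metric.ball (0 : ℂ) r, HasDerivAt (fun s => f s / g s) 0 t := by
    intro t ht
    obtain ⟨⟨w, hw⟩, hgt⟩ := hball t ht
    have h1 := S.hasDerivAt_line x (y + x * y) t
    have h2 := S.hasDerivAt_line 0 y t
    have e1 : y + x * y = w + (x + t • (y + x * y)) * w := by
      have : (t • y) * w = y - w := eq_sub_of_add_eq' hw
      have h3 : (x + t • (y + x * y)) * w = x * w + (t • y) * w + x * ((t • y) * w) := by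
        simp only [add_mul, smul_mul_assoc, smul_add, mul_smul_comm, mul_assoc]
        abel
      rw [h3, this, mul_sub]
      abel
    have e2 : y = w + (0 + t • y) * w := by rw [zero_add, hw]
    have k1 := S.key (x + t • (y + x * y)) w
    rw [← e1] at k1
    have k2 := S.key (0 + t • y) w
    rw [← e2] at k2
    rw [k1] at h1
    rw [k2] at h2
    have h3 := h1.fun_div h2 hgt
    refine h3.congr_deriv ?_
    have e3 : ⟪S.v, exp (S.N (x + t • (y + x * y))) S.v⟫_ℂ = f t := rfl
    have e4 : ⟪S.v, exp (S.N (0 + t • y)) S.v⟫_ℂ = g t := rfl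
    rw [e3, e4]
    have e5 : S.Φ (x + t • (y + x * y)) = f t := rfl
    have e6 : S.Φ (0 + t • y) = g t := rfl
    rw [e5, e6]
    rw [show S.lam w * f t * g t - f t * (S.lam w * g t) = 0 by ring, zero_div]
  have hconst : ∀ t ∈ Metric.ball (0 : ℂ) r, f t / g t = f 0 / g 0 := by
    intro t ht
    refine Metric.isOpen_ball.is_const_of_deriv_eq_zero (f := fun s => f s / g s)
      (convex_ball (0 : ℂ) r).isPreconnected
      (fun s hs => (hq s hs).differentiableAt.differentiableWithinAt)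
      (fun s hs => (hq s hs).deriv) ht (Metric.mem_ball_self hr)
  have hev : f =ᶠ[𝓝 0] fun t => f 0 / g 0 * g t := by
    filter_upwards [Metric.ball_mem_nhds (0 : ℂ) hr] with t ht
    have h1 := hconst t ht
    have h2 := (hball t ht).2
    rw [div_eq_iff h2] at h1
    exact h1
  have hall := AnalyticOnNhd.eq_of_eventuallyEq (f := f) (g := fun t => f 0 / g 0 * g t)
    (fun t _ => hdf.analyticAt t) (fun t _ => ((hdg.const_mul _).analyticAt t)) hev
  have h1 := congrFun hall 1
  simp only [hf, hg, one_smul, zero_smul, add_zero, zero_add] at h1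
  have e : x + (y + x * y) = x + y + x * y := by abel
  rw [e] at h1
  rw [h1]
  have := S.Φ_zero_ne
  field_simp

variable [TopologicalSpace A] [IsTopologicalRing A] 

/-- powers `a ^ (n + 1)` -/
def pw (a : A) : ℕ → A
  | 0 => a
  | n + 1 => pw a n * a

/-- the exponential -/
theorem expo (hN : Continuous S.N) (a : A) (z : ℂ → A)
    (hz : ∀ t : ℂ, HasSum (fun n : ℕ => (t ^ (n + 1) * ((n + 1).factorial : ℂ)⁻¹) • pw a n) (z t)) :
    S.Φ (z 1) = S.Φ 0 * Complex.exp (S.lam a) := by
  have hNs : ∀ t : ℂ, HasSum (fun n : ℕ => (t ^ (n + 1) * ((n + 1).factorial : ℂ)⁻¹) •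
      S.N (pw a n)) (S.N (z t)) := by
    intro t
    have := (hz t).map S.N hN
    simpa [Function.comp_def, map_smul] using this
  have hd : ∀ t : ℂ, HasDerivAt (fun s => S.N (z s)) (S.N (a + z t * a)) t := by
    intro t
    obtain ⟨R, hR0, htR⟩ : ∃ R : ℝ, 0 < R ∧ ‖t‖ < R :=
      ⟨‖t‖ + 1, by positivity, lt_add_one _⟩
    -- bounds
    obtain ⟨C, hC⟩ : ∃ C : ℝ, ∀ n : ℕ,
        ‖((((2 * R : ℝ) : ℂ)) ^ (n + 1) * ((n + 1).factorial : ℂ)⁻¹) • S.N (pw a n)‖ ≤ C := by
      have h1 := (hNs ((2 * R : ℝ) : ℂ)).summable.tendsto_atTop_zero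
      have h2 := h1.norm.bddAbove_range
      obtain ⟨C, hC⟩ := h2
      exact ⟨C, fun n => hC ⟨n, rfl⟩⟩
    have hu : Summable (fun n : ℕ => C / (2 * R) * ((n + 1 : ℝ) * (1 / 2) ^ n)) := by
      refine Summable.mul_left _ ?_
      have h1 := summable_pow_mul_geometric_of_norm_lt_one (R := ℝ) 1 (r := 1 / 2) (by norm_num)
      have h2 := summable_geometric_of_lt_one (r := (1 / 2 : ℝ)) (by norm_num) (by norm_num)
      refine (h1.add h2).congr ?_
      intro n
      rw [pow_one]; ring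
    have h3 := hasDerivAt_tsum_of_isPreconnected (𝕜 := ℂ) (F := H →L[ℂ] H)
      (g := fun (n : ℕ) (s : ℂ) => (s ^ (n + 1) * ((n + 1).factorial : ℂ)⁻¹) • S.N (pw a n))
      (g' := fun (n : ℕ) (s : ℂ) => (((n + 1 : ℂ) * s ^ n) * ((n + 1).factorial : ℂ)⁻¹) •
        S.N (pw a n)) hu Metric.isOpen_ball (convex_ball (0 : ℂ) R).isPreconnected
      (y₀ := t) (y := t) ?_ ?_ (by simpa using htR) (hNs t).summable (by simpa using htR)
    · have e1 : (fun s => ∑' n : ℕ, (s ^ (n + 1) * ((n + 1).factorial : ℂ)⁻¹) • S.N (pw a n)) =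
          fun s => S.N (z s) := by
        funext s
        exact (hNs s).tsum_eq
      rw [e1] at h3
      refine h3.congr_deriv ?_
      have h4 : HasSum (fun n : ℕ => (t ^ n * (n.factorial : ℂ)⁻¹) • S.N (pw a n))
          (S.N (a + z t * a)) := by
        have h5 : HasSum (fun n : ℕ => (t ^ (n + 1) * ((n + 1).factorial : ℂ)⁻¹) •
            (pw a n * a)) (z t * a) := by
          have := (hz t).mul_right a
          simpa [smul_mul_assoc] using this
        have h6 := h5.map S.N hN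
        have h7 : HasSum (fun n : ℕ => (t ^ (n + 1) * ((n + 1).factorial : ℂ)⁻¹) •
            S.N (pw a (n + 1))) (S.N (z t * a)) := by
          simpa [Function.comp_def, map_smul, pw] using h6
        have h8 := HasSum.zero_add (f := fun n : ℕ => (t ^ n * (n.factorial : ℂ)⁻¹) •
          S.N (pw a n)) h7
        simpa [pw] using h8
      rw [← h4.tsum_eq]
      refine tsum_congr fun n => ?_
      congr 1
      rw [Nat.factorial_succ]
      push_cast
      have : (n.factorial : ℂ) ≠ 0 := by exact_mod_cast Nat.factorial_ne_zero n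
      have h9 : (n + 1 : ℂ) ≠ 0 := by exact_mod_cast Nat.succ_ne_zero n
      field_simp
    · intro n s _
      have h5 := ((hasDerivAt_pow (n + 1) s).mul_const ((n + 1).factorial : ℂ)⁻¹).smul_const
        (S.N (pw a n))
      simpa using h5
    · intro n s hs
      have hs' : ‖s‖ < R := by simpa using hs
      have h5 := hC n
      rw [norm_smul] at h5 ⊢
      simp only [norm_mul, norm_pow, norm_inv, Complex.norm_natCast, Complex.norm_real,
        Real.norm_eq_abs, abs_two, abs_mul, abs_of_pos hR0] at h5 ⊢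
      have h6 : ‖(n + 1 : ℂ)‖ = (n + 1 : ℝ) := by
        rw [show (n + 1 : ℂ) = ((n + 1 : ℕ) : ℂ) by push_cast; rfl, Complex.norm_natCast]
        push_cast; rfl
      rw [h6]
      set q := (((n + 1).factorial : ℝ))⁻¹ * ‖S.N (pw a n)‖ with hq
      have hq0 : 0 ≤ q := by positivity
      have h7 : (2 * R) ^ (n + 1) * q ≤ C := by rw [hq, ← mul_assoc]; exact h5
      have h8 : q ≤ C / (2 * R) ^ (n + 1) := by
        rw [le_div_iff₀ (by positivity), mul_comm]; exact h7
      calc (n + 1 : ℝ) * ‖s‖ ^ n * ((n + 1).factorial : ℝ)⁻¹ * ‖S.N (pw a n)‖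
          = (n + 1 : ℝ) * ‖s‖ ^ n * q := by rw [hq]; ring
        _ ≤ (n + 1 : ℝ) * R ^ n * (C / (2 * R) ^ (n + 1)) := by
            gcongr
        _ = C / (2 * R) * ((n + 1 : ℝ) * (1 / 2) ^ n) := by
            rw [pow_succ, mul_pow, div_pow, one_pow]
            field_simp
  have hm : ∀ t : ℂ, HasDerivAt (fun s => S.Φ (z s)) (S.lam a * S.Φ (z t)) t := by
    intro t
    have h1 := S.hasDerivAt_curve (hd t)
    refine h1.congr_deriv ?_
    rw [S.key (z t) a]
    rfl
  have hm2 : ∀ t : ℂ, HasDerivAt (fun s => S.Φ (z s) * Complex.exp (-(S.lam a * s))) 0 t := by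
    intro t
    have h1 : HasDerivAt (fun s : ℂ => Complex.exp (-(S.lam a * s)))
        (Complex.exp (-(S.lam a * t)) * (-(S.lam a))) t := by
      have h0 : HasDerivAt (fun s : ℂ => -(S.lam a * s)) (-(S.lam a)) t := by
        simpa using ((hasDerivAt_id t).const_mul (S.lam a)).fun_neg
      exact h0.cexp
    have h2 := (hm t).fun_mul h1
    refine h2.congr_deriv ?_
    ring
  have hc := is_const_of_deriv_eq_zero
    (f := fun s => S.Φ (z s) * Complex.exp (-(S.lam a * s)))
    (fun t => (hm2 t).differentiableAt) (fun t => (hm2 t).deriv) 1 0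
  have hz0 : S.N (z 0) = 0 := by
    have h1 := hNs 0
    have h2 : HasSum (fun n : ℕ => ((0 : ℂ) ^ (n + 1) * ((n + 1).factorial : ℂ)⁻¹) •
      S.N (pw a n)) 0 := by
      simp [hasSum_zero]
    exact h1.unique h2
  have hΦ0 : S.Φ (z 0) = S.Φ 0 := by
    rw [Φ, Φ, hz0, map_zero]
  simp only [mul_one, mul_zero, neg_zero, Complex.exp_zero, hΦ0] at hc
  rw [← hc, mul_assoc, ← Complex.exp_add, neg_add_cancel, Complex.exp_zero, mul_one]

end Data

end Pool.Agent.V110.ME
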